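import Pool.Agent.H427.PC.Def

/-!
The product formula for pencils of curves.
-/

set_option autoImplicit false
set_option linter.all false
set_option maxHeartbeats 1000000

open Polynomial FF Module

open scoped LinearAlgebra.Projectivization

namespace Pool.Agent.H427.PC

open Pool.Agent.W343.BSD Pool.Agent.Y701.QF

variable {k : Type} [Field k] {M s : ℕ} (G : Fin s → MvPolynomial (Fin (M + 1)) k)
  (A B : MvPolynomial (Fin (M + 1)) k)

/-- the number of the pairs of a parameter and a point of the curve -/
theorem sum_member (F : Type) [Field F] [Fintype F] [Algebra k F] :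
    ∑ u : Option F, Nat.card (member G A B u) =
      Nat.card (points G F) + Nat.card F * Nat.card (basePoints G A B F) := by
  classical
  have hf : Finite (ℙ F (Fin (M + 1) → F)) := inferInstance
  have : Fintype (ℙ F (Fin (M + 1) → F)) := Fintype.ofFinite _
  have h1 : ∀ u : Option F, Nat.card (member G A B u) =
      ∑ x : ℙ F (Fin (M + 1) → F), if x ∈ member G A B u then 1 else 0 := by
    intro u
    rw [Finset.sum_boole, Nat.cast_id, ← Fintype.card_subtype, Nat.card_eq_fintype_card]
  have h2 : Nat.card (points G F) =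
      ∑ x : ℙ F (Fin (M + 1) → F), if x ∈ points G F then 1 else 0 := by
    rw [Finset.sum_boole, Nat.cast_id, ← Fintype.card_subtype, Nat.card_eq_fintype_card]
  have h3 : Nat.card (basePoints G A B F) =
      ∑ x : ℙ F (Fin (M + 1) → F), if x ∈ basePoints G A B F then 1 else 0 := by
    rw [Finset.sum_boole, Nat.cast_id, ← Fintype.card_subtype, Nat.card_eq_fintype_card]
  simp only [h1]
  rw [Finset.sum_comm, h2, h3, Finset.mul_sum, ← Finset.sum_add_distrib]
  refine Finset.sum_congr rfl fun x _ => ?_
  rw [Fintype.sum_option]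
  by_cases hx : x ∈ points G F
  · by_cases hB : MvPolynomial.aeval x.rep B = 0
    · by_cases hA : MvPolynomial.aeval x.rep A = 0
      · have e1 : x ∈ basePoints G A B F := ⟨hx, hA, hB⟩
        have e2 : x ∈ member G A B (none : Option F) := ⟨hx, hB⟩
        have e3 : ∀ u : F, x ∈ member G A B (some u) := by
          intro u
          refine ⟨hx, ?_⟩
          rw [hA, hB, mul_zero]
        rw [if_pos hx, if_pos e1, if_pos e2, Finset.sum_congr rfl fun u _ => if_pos (e3 u)]
        simp [Nat.card_eq_fintype_card]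
      · have e1 : x ∉ basePoints G A B F := fun h => hA h.2.1
        have e2 : x ∈ member G A B (none : Option F) := ⟨hx, hB⟩
        have e3 : ∀ u : F, x ∉ member G A B (some u) := by
          rintro u ⟨-, hu⟩
          rw [hB, mul_zero] at hu
          exact hA hu
        rw [if_pos hx, if_neg e1, if_pos e2, Finset.sum_congr rfl fun u _ => if_neg (e3 u)]
        simp
    · have e1 : x ∉ basePoints G A B F := fun h => hB h.2.2
      have e2 : x ∉ member G A B (none : Option F) := fun h => hB h.2
      have e3 : ∀ u : F, x ∈ member G A B (some u) ↔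
          u = MvPolynomial.aeval x.rep A / MvPolynomial.aeval x.rep B := by
        intro u
        constructor
        · rintro ⟨-, hu⟩
          rw [hu, mul_div_cancel_right₀ _ hB]
        · rintro rfl
          exact ⟨hx, by rw [div_mul_cancel₀ _ hB]⟩
      rw [if_pos hx, if_neg e1, if_neg e2, Finset.sum_congr rfl fun u _ => by
        rw [if_congr (e3 u) rfl rfl]]
      simp
  · have e1 : x ∉ basePoints G A B F := fun h => hx h.1
    have e2 : x ∉ member G A B (none : Option F) := fun h => hx h.1
    have e3 : ∀ u : F, x ∉ member G A B (some u) := fun u h => hx h.1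
    rw [if_neg hx, if_neg e1, if_neg e2, Finset.sum_congr rfl fun u _ => if_neg (e3 u)]
    simp

variable [Finite k]

theorem exists_extension (k : Type) [Field k] [Finite k] (n : ℕ) (hn : n ≠ 0) :
    ∃ (F : Type) (_ : Field F) (_ : Fintype F) (_ : Algebra k F), finrank k F = n := by
  obtain ⟨p, hp⟩ := CharP.exists k
  have : Fact p.Prime := ⟨CharP.char_is_prime k p⟩
  have : NeZero n := ⟨hn⟩
  have i1 : Fintype (FiniteField.Extension k p n) := Fintype.ofFinite _
  refine ⟨FiniteField.Extension k p n, inferInstance, i1, inferInstance, ?_⟩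
  have h1 := FiniteField.natCard_extension k p n
  have h2 : Nat.card (FiniteField.Extension k p n) =
      Nat.card k ^ finrank k (FiniteField.Extension k p n) := Module.natCard_eq_pow_finrank
  rw [h2] at h1
  exact Nat.pow_right_injective (Finite.one_lt_card (α := k)) h1

variable {G A B}

/-- the polynomial `1 - (q T) ^ m` -/
noncomputable def fac (q m : ℕ) : ℤ[X] := 1 - C ((q : ℤ) ^ m) * X ^ m

theorem fac_coeff_zero (q : ℕ) {m : ℕ} (hm : 0 < m) : (fac q m).coeff 0 = 1 := by
  unfold fac
  rw [coeff_sub, coeff_C_mul, coeff_X_pow, if_neg (by omega), mul_zero, sub_zero, coeff_one_zero]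

theorem coeff_pw_fac (q : ℕ) {m : ℕ} (hm : 0 < m) {n : ℕ} (hn : n ≠ 0) :
    PowerSeries.coeff n (pw (PowerSeries.map (Int.castRingHom ℂ) (fac q m : PowerSeries ℤ))) =
      if m ∣ n then -((m : ℂ) * (q : ℂ) ^ n) else 0 := by
  have h1 : PowerSeries.map (Int.castRingHom ℂ) (fac q m : PowerSeries ℤ) =
      1 - PowerSeries.C ((q : ℂ) ^ m) * PowerSeries.X ^ m := by
    rw [← Polynomial.polynomial_map_coe]
    unfold fac
    simp only [Polynomial.map_sub, Polynomial.map_one, Polynomial.map_mul, Polynomial.map_C,
      Polynomial.map_pow, Polynomial.map_X, Polynomial.coe_sub, Polynomial.coe_one,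
      Polynomial.coe_mul, Polynomial.coe_C, Polynomial.coe_pow, Polynomial.coe_X, map_pow]
    simp
  rw [h1, coeff_pw_lin (by omega) _ hn]
  split_ifs with h
  · obtain ⟨j, rfl⟩ := h
    rw [Nat.mul_div_cancel_left _ hm, ← pow_mul]
  · rfl

theorem constantCoeff_map {F : PowerSeries ℤ} (h : PowerSeries.constantCoeff F = 1) :
    PowerSeries.constantCoeff (PowerSeries.map (Int.castRingHom ℂ) F) = 1 := by
  rw [← PowerSeries.coeff_zero_eq_constantCoeff_apply, PowerSeries.coeff_map,
    PowerSeries.coeff_zero_eq_constantCoeff_apply, h]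
  simp

theorem constantCoeff_poly {P : ℤ[X]} (h : P.coeff 0 = 1) :
    PowerSeries.constantCoeff (P : PowerSeries ℤ) = 1 := by
  rw [← PowerSeries.coeff_zero_eq_constantCoeff_apply, Polynomial.coeff_coe, h]

/-- the product formula -/
theorem product {D : ℤ[X]} {b : ℕ} {m : Fin b → ℕ} (h : IsPencil G A B D m)
    {P N : Place k (RatFunc k) → ℤ[X]} (hP : ∀ v, (P v).coeff 0 = 1) (hN : ∀ v, (N v).coeff 0 = 1)
    (hc : ∀ v, Counts G A B v (P v) (N v)) :
    eul (fun v : Place k (RatFunc k) => v.deg) P *
        ((D * ∏ i, fac (Nat.card k) (m i) : ℤ[X]) : PowerSeries ℤ) =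
      eul (fun v : Place k (RatFunc k) => v.deg) N *
        ((fac (Nat.card k) 1 ^ 2 : ℤ[X]) : PowerSeries ℤ) := by
  classical
  set q := Nat.card k with hq
  have hfin : ∀ n, {v : Place k (RatFunc k) | v.deg ≤ n}.Finite := fun n => places_fin n
  have hd : ∀ v : Place k (RatFunc k), v.deg ≠ 0 := fun v => (deg_pos' v).ne'
  have c1 := constantCoeff_eul hfin hd hP
  have c2 := constantCoeff_eul hfin hd hN
  have c3 : (D * ∏ i, fac q (m i) : ℤ[X]).coeff 0 = 1 := by
    rw [mul_coeff_zero, h.constant, one_mul, ← constantCoeff_apply, map_prod]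
    exact Finset.prod_eq_one fun i _ => fac_coeff_zero q (h.positive i)
  have c4 : (fac q 1 ^ 2 : ℤ[X]).coeff 0 = 1 := by
    rw [← constantCoeff_apply, map_pow, constantCoeff_apply, fac_coeff_zero q one_pos, one_pow]
  have hinj : Function.Injective (PowerSeries.map (Int.castRingHom ℂ)) :=
    PowerSeries.map_injective _ (RingHom.injective_int _)
  apply hinj
  have d1 : PowerSeries.constantCoeff (PowerSeries.map (Int.castRingHom ℂ)
      (eul (fun v : Place k (RatFunc k) => v.deg) P)) = 1 := constantCoeff_map c1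
  have d2 : PowerSeries.constantCoeff (PowerSeries.map (Int.castRingHom ℂ)
      (eul (fun v : Place k (RatFunc k) => v.deg) N)) = 1 := constantCoeff_map c2
  have d3 := constantCoeff_map (constantCoeff_poly c3)
  have d4 := constantCoeff_map (constantCoeff_poly c4)
  rw [map_mul, map_mul]
  apply eq_of_pw
  · rw [map_mul, d1, d3, one_mul]
  · rw [map_mul, d2, d4, one_mul]
  intro n hn
  rw [pw_mul (by rw [d1]; exact one_ne_zero) (by rw [d3]; exact one_ne_zero),
    pw_mul (by rw [d2]; exact one_ne_zero) (by rw [d4]; exact one_ne_zero), map_add, map_add,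
    coeff_pw_eul hfin hd hP hn, coeff_pw_eul hfin hd hN hn]
  obtain ⟨F, i1, i2, i3, hF⟩ := exists_extension k n hn
  have hpt : ∀ v : Place k (RatFunc k), v.deg ∣ n → Nat.card {u : Option F // pl u = v} = v.deg := by
    intro v hv
    rw [card_fibre, if_pos (by rw [hF]; exact hv)]
  have hpt' : ∀ v : Place k (RatFunc k), ¬ v.deg ∣ n → Nat.card {u : Option F // pl u = v} = 0 := by
    intro v hv
    rw [card_fibre, if_neg (by rw [hF]; exact hv)]
  have s1 := sum_points hfin hn (fun u : Option F => pl (k := k) u) hpt hpt'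
    (fun v => powerSum (n / v.deg) (P v))
  have s2 := sum_points hfin hn (fun u : Option F => pl (k := k) u) hpt hpt'
    (fun v => powerSum (n / v.deg) (N v))
  rw [s1, s2]
  have hcard : (Nat.card F : ℂ) = (q : ℂ) ^ n := by
    have h2 : Nat.card F = Nat.card k ^ finrank k F := Module.natCard_eq_pow_finrank
    rw [h2, hF, hq, Nat.cast_pow]
  have s3 : ∑ u : Option F, (powerSum (n / (pl (k := k) u).deg) (P (pl u)) -
      powerSum (n / (pl (k := k) u).deg) (N (pl u))) =
      ∑ u : Option F, ((1 + (Nat.card F : ℂ)) - (Nat.card (member G A B u) : ℂ)) := by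
    refine Finset.sum_congr rfl fun u _ => ?_
    have hdv : (pl (k := k) u).deg ∣ n := by
      by_contra hcon
      have h3 := hpt' _ hcon
      have : Nonempty {u' : Option F // pl (k := k) u' = pl u} := ⟨⟨u, rfl⟩⟩
      rw [Nat.card_eq_fintype_card, Fintype.card_eq_zero_iff] at h3
      exact h3.false this.some
    have h4 := hc (pl u) F u (n / (pl (k := k) u).deg) (isPoint_pl u) (by
      rw [S.deg_eq, hF, Nat.mul_div_cancel' hdv])
    rw [h4]
    ring
  rw [Finset.sum_sub_distrib, Finset.sum_sub_distrib] at s3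
  have s4 : ∑ u : Option F, (Nat.card (member G A B u) : ℂ) =
      (Nat.card (points G F) : ℂ) + (Nat.card F : ℂ) * (Nat.card (basePoints G A B F) : ℂ) := by
    have := sum_member G A B F
    exact_mod_cast this
  have s5 : ∑ u : Option F, (1 + (Nat.card F : ℂ)) = (1 + (Nat.card F : ℂ)) ^ 2 := by
    rw [Finset.sum_const, Finset.card_univ, Fintype.card_option, nsmul_eq_mul,
      Nat.card_eq_fintype_card]
    push_cast
    ring
  rw [s4, s5, h.surface F, h.base F, hF, hcard] at s3
  have hD0 : PowerSeries.constantCoeff (PowerSeries.map (Int.castRingHom ℂ)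
      (D : PowerSeries ℤ)) ≠ 0 := by
    rw [constantCoeff_map (constantCoeff_poly h.constant)]; exact one_ne_zero
  have hf0 : ∀ j : ℕ, 0 < j → PowerSeries.constantCoeff (PowerSeries.map (Int.castRingHom ℂ)
      (fac q j : PowerSeries ℤ)) ≠ 0 := by
    intro j hj
    rw [constantCoeff_map (constantCoeff_poly (fac_coeff_zero q hj))]; exact one_ne_zero
  have t1 : PowerSeries.coeff n (pw (PowerSeries.map (Int.castRingHom ℂ)
      ((D * ∏ i, fac q (m i) : ℤ[X]) : PowerSeries ℤ))) =
      -powerSum n D + ∑ i, (if m i ∣ n then -((m i : ℂ) * (q : ℂ) ^ n) else 0) := by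
    rw [Polynomial.coe_mul, ← Polynomial.coeToPowerSeries.ringHom_apply (φ := ∏ i, fac q (m i)),
      map_prod, map_mul, map_prod]
    simp only [Polynomial.coeToPowerSeries.ringHom_apply]
    rw [pw_mul hD0 (constantCoeff_prod_ne _ _ fun i _ => hf0 _ (h.positive i)),
      pw_prod _ _ fun i _ => hf0 _ (h.positive i), map_add, map_sum]
    congr 1
    · have := coeff_pw_expand h.constant one_ne_zero hn
      rw [expand_one, if_pos (one_dvd n), Nat.div_one, Nat.cast_one, one_mul] at this
      exact this
    · exact Finset.sum_congr rfl fun i _ => coeff_pw_fac q (h.positive i) hn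
  have t2 : PowerSeries.coeff n (pw (PowerSeries.map (Int.castRingHom ℂ)
      ((fac q 1 ^ 2 : ℤ[X]) : PowerSeries ℤ))) = -(2 * (q : ℂ) ^ n) := by
    rw [Polynomial.coe_pow, map_pow, pow_two, pw_mul (hf0 1 one_pos) (hf0 1 one_pos), map_add,
      coeff_pw_fac q one_pos hn, if_pos (one_dvd n)]
    push_cast
    ring
  rw [t1, t2]
  have t3 : ∑ i, (if m i ∣ n then -((m i : ℂ) * (q : ℂ) ^ n) else 0) =
      -((q : ℂ) ^ n * ((∑ i, if m i ∣ n then m i else 0 : ℕ) : ℂ)) := by
    push_cast
    rw [Finset.mul_sum, ← Finset.sum_neg_distrib]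
    refine Finset.sum_congr rfl fun i _ => ?_
    split_ifs
    · ring
    · ring
  rw [t3]
  linear_combination -s3

end Pool.Agent.H427.PC
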