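import Pool.Agent.H427.PC.Pts
import Pool.Graph.R_seed8.W343.BSD.Stmt

/-!
Pencils of curves on surfaces over finite fields.
-/

set_option autoImplicit false
set_option linter.all false
set_option maxHeartbeats 1000000

open Polynomial FF Module

open scoped LinearAlgebra.Projectivization

namespace Pool.Agent.H427.PC

open Pool.Agent.W343.BSD

variable {k : Type} [Field k] {M s : ℕ}

/-- The set of the points, with coordinates in the extension `F` of `k`, of the projective space of
dimension `M` where the forms `G i` vanish. -/
def points (G : Fin s → MvPolynomial (Fin (M + 1)) k) (F : Type) [Field F] [Algebra k F] :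
    Set (ℙ F (Fin (M + 1) → F)) :=
  {x | ∀ i, MvPolynomial.aeval x.rep (G i) = 0}

/-- The base points of the pencil spanned by the forms `A`, `B`: the common zeros. -/
def basePoints (G : Fin s → MvPolynomial (Fin (M + 1)) k) (A B : MvPolynomial (Fin (M + 1)) k)
    (F : Type) [Field F] [Algebra k F] : Set (ℙ F (Fin (M + 1) → F)) :=
  {x | x ∈ points G F ∧ MvPolynomial.aeval x.rep A = 0 ∧ MvPolynomial.aeval x.rep B = 0}

/-- The member of the pencil with the parameter `u`: the curve `A = u B`, and `B = 0` for the
parameter `none` (the point at infinity). -/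
def member (G : Fin s → MvPolynomial (Fin (M + 1)) k) (A B : MvPolynomial (Fin (M + 1)) k)
    {F : Type} [Field F] [Algebra k F] : Option F → Set (ℙ F (Fin (M + 1) → F))
  | none => {x | x ∈ points G F ∧ MvPolynomial.aeval x.rep B = 0}
  | some u => {x | x ∈ points G F ∧
      MvPolynomial.aeval x.rep A = u * MvPolynomial.aeval x.rep B}

/-- `A` and `B` are forms of the same degree on the surface where the forms `G i` vanish. The surface
has `1 + q ^ (2 n) + p_n(D)` points over the extension of degree `n` of the field `k` with `q` elements,
where `p_n(D)` is the sum of the `n`-th powers of the reciprocals of the zeros of `D`. The closed base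
points of the pencil spanned by `A` and `B` have the degrees `m i`. -/
structure IsPencil (G : Fin s → MvPolynomial (Fin (M + 1)) k) (A B : MvPolynomial (Fin (M + 1)) k)
    (D : ℤ[X]) {b : ℕ} (m : Fin b → ℕ) : Prop where
  forms : ∀ i, ∃ g : ℕ, (G i).IsHomogeneous g
  degree : ∃ g : ℕ, A.IsHomogeneous g ∧ B.IsHomogeneous g
  constant : D.coeff 0 = 1
  surface : ∀ (F : Type) [Field F] [Finite F] [Algebra k F],
    (Nat.card (points G F) : ℂ) = 1 + (Nat.card F : ℂ) ^ 2 + powerSum (finrank k F) D
  positive : ∀ i, 0 < m i
  base : ∀ (F : Type) [Field F] [Finite F] [Algebra k F],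
    Nat.card (basePoints G A B F) = ∑ i, if m i ∣ finrank k F then m i else 0

/-- The members of the pencil over the place `v` of `k(t)` with the residue field `κ` have
`1 + |F| - p_j(P) + p_j(N)` points over the extension `F` of degree `j` of `κ`, for all `j`. -/
def Counts (G : Fin s → MvPolynomial (Fin (M + 1)) k) (A B : MvPolynomial (Fin (M + 1)) k)
    (v : Place k (RatFunc k)) (P N : ℤ[X]) : Prop :=
  ∀ (F : Type) [Field F] [Finite F] [Algebra k F] (u : Option F) (j : ℕ), IsPoint v u →
    finrank k F = S.deg v * j →
    (Nat.card (member G A B u) : ℂ) = 1 + Nat.card F - powerSum j P + powerSum j N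

end Pool.Agent.H427.PC
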