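import Pool.Agent.H427.PC.Pow

/-!
Power sums of Euler products.
-/

set_option autoImplicit false
set_option linter.all false
set_option maxHeartbeats 1000000

open Polynomial

namespace Pool.Agent.H427.PC

open Pool.Agent.Y701.QF Pool.Agent.W343.BSD

variable {ι : Type} {d : ι → ℕ} (hfin : ∀ n, {i | d i ≤ n}.Finite) (hd : ∀ i, d i ≠ 0)
  {P : ι → ℤ[X]} (hP : ∀ i, (P i).coeff 0 = 1)

/-- the Euler product of the `P_i(T ^ (d i))` -/
noncomputable def eul (d : ι → ℕ) (P : ι → ℤ[X]) : PowerSeries ℤ :=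
  eulerProd d (fun i => ((expand ℤ (d i) (P i) : ℤ[X]) : PowerSeries ℤ))

include hd hP in
theorem expand_mod (i : ι) :
    (PowerSeries.X : PowerSeries ℤ) ^ d i ∣ ((expand ℤ (d i) (P i) : ℤ[X]) : PowerSeries ℤ) - 1 := by
  rw [PowerSeries.X_pow_dvd_iff]
  intro m hm
  rw [map_sub, Polynomial.coeff_coe, coeff_expand (Nat.pos_of_ne_zero (hd i)), PowerSeries.coeff_one]
  by_cases h0 : m = 0
  · subst h0
    simp [hP i]
  · rw [if_neg h0, if_neg, sub_zero]
    intro h
    have := Nat.le_of_dvd (Nat.pos_of_ne_zero h0) h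
    omega

include hfin hd hP in
theorem constantCoeff_eul : PowerSeries.constantCoeff (eul d P) = 1 := by
  classical
  rw [← PowerSeries.coeff_zero_eq_constantCoeff_apply]
  unfold eul
  rw [coeff_eulerProd hfin, PowerSeries.coeff_zero_eq_constantCoeff_apply, map_prod]
  apply Finset.prod_eq_one
  intro i hi
  rw [Set.Finite.mem_toFinset] at hi
  exact absurd (Nat.le_zero.1 hi) (hd i)

include hfin hd hP in
open Classical in
theorem coeff_pw_eul {n : ℕ} (hn : n ≠ 0) :
    PowerSeries.coeff n (pw (PowerSeries.map (Int.castRingHom ℂ) (eul d P))) =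
      -∑ i ∈ (hfin n).toFinset, if d i ∣ n then (d i : ℂ) * powerSum (n / d i) (P i) else 0 := by
  have h1 := eulerProd_mod hfin (f := fun i => ((expand ℤ (d i) (P i) : ℤ[X]) : PowerSeries ℤ))
    (expand_mod hd hP) n (hfin n).toFinset (fun i hi => by
      rw [Set.Finite.mem_toFinset]; exact hi)
  have h2 : (PowerSeries.X : PowerSeries ℂ) ^ (n + 1) ∣
      PowerSeries.map (Int.castRingHom ℂ) (eul d P) - ∏ i ∈ (hfin n).toFinset,
        PowerSeries.map (Int.castRingHom ℂ) ((expand ℤ (d i) (P i) : ℤ[X]) : PowerSeries ℤ) := by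
    rw [← map_prod, ← map_sub]
    obtain ⟨H, hH⟩ := h1
    refine ⟨PowerSeries.map (Int.castRingHom ℂ) H, ?_⟩
    unfold eul
    rw [hH, map_mul, map_pow, PowerSeries.map_X]
  have hc : ∀ i, PowerSeries.constantCoeff (PowerSeries.map (Int.castRingHom ℂ)
      ((expand ℤ (d i) (P i) : ℤ[X]) : PowerSeries ℤ)) ≠ 0 := by
    intro i
    rw [← PowerSeries.coeff_zero_eq_constantCoeff_apply, PowerSeries.coeff_map,
      Polynomial.coeff_coe, coeff_expand (Nat.pos_of_ne_zero (hd i))]
    simp [hP i]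
  have h3 : PowerSeries.constantCoeff (PowerSeries.map (Int.castRingHom ℂ) (eul d P)) ≠ 0 := by
    rw [← PowerSeries.coeff_zero_eq_constantCoeff_apply, PowerSeries.coeff_map,
      PowerSeries.coeff_zero_eq_constantCoeff_apply, constantCoeff_eul hfin hd hP]
    simp
  rw [coeff_pw_congr h3 (constantCoeff_prod_ne _ _ fun i _ => hc i) h2, pw_prod _ _ fun i _ => hc i,
    map_sum, ← Finset.sum_neg_distrib]
  refine Finset.sum_congr rfl fun i _ => ?_
  rw [coeff_pw_expand (hP i) (hd i) hn]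
  split_ifs with h
  · rfl
  · rw [neg_zero]

/-- the sum over the points of the fibres -/
theorem sum_points {n : ℕ} (hn : n ≠ 0) {V : Type} [Fintype V] (pt : V → ι)
    (hpt : ∀ i, d i ∣ n → Nat.card {u : V // pt u = i} = d i)
    (hpt' : ∀ i, ¬ d i ∣ n → Nat.card {u : V // pt u = i} = 0) (g : ι → ℂ) :
    ∑ i ∈ (hfin n).toFinset, (if d i ∣ n then (d i : ℂ) * g i else 0) = ∑ u : V, g (pt u) := by
  classical
  have h1 : ∀ u : V, pt u ∈ (hfin n).toFinset := by
    intro u
    rw [Set.Finite.mem_toFinset]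
    by_contra h
    have h2 : ¬ d (pt u) ∣ n := fun h3 => h (Nat.le_of_dvd (Nat.pos_of_ne_zero hn) h3)
    have h3 := hpt' _ h2
    have : Nonempty {u' : V // pt u' = pt u} := ⟨⟨u, rfl⟩⟩
    rw [Nat.card_eq_fintype_card, Fintype.card_eq_zero_iff] at h3
    exact h3.false this.some
  rw [← Finset.sum_fiberwise_of_maps_to (s := Finset.univ) (t := (hfin n).toFinset) (g := pt)
    (fun u _ => h1 u)]
  refine Finset.sum_congr rfl fun i _ => ?_
  have h2 : ∑ u ∈ Finset.univ.filter (fun u => pt u = i), g (pt u) =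
      (Nat.card {u : V // pt u = i} : ℂ) * g i := by
    rw [Finset.sum_congr rfl (g := fun _ => g i) (fun u hu => by
      rw [(Finset.mem_filter.1 hu).2]), Finset.sum_const, nsmul_eq_mul, Nat.card_eq_fintype_card,
      Fintype.card_subtype]
  rw [h2]
  split_ifs with h
  · rw [hpt i h]
  · rw [hpt' i h]; simp

end Pool.Agent.H427.PC
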