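import Pool.Graph.R_seed8.W343.BSD.Euler
import Pool.Graph.R_seed8.Y701.QF.Pw

/-!
Power sums of Euler products.
-/

set_option autoImplicit false
set_option linter.all false
set_option maxHeartbeats 1000000

open Polynomial

namespace Pool.Agent.H427.PC

open Pool.Agent.Y701.QF Pool.Agent.W343.BSD

/-- the sum of the `x ^ (-n)` over the complex zeros `x` of `P`, with multiplicities -/
noncomputable def powerSum (n : ℕ) (P : ℤ[X]) : ℂ :=
  (((P.map (Int.castRingHom ℂ)).roots).map (fun x => x⁻¹ ^ n)).sum

theorem coeff_pw_congr {R : Type*} [Field R] {F G : PowerSeries R} {n : ℕ}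
    (hF : PowerSeries.constantCoeff F ≠ 0) (hG : PowerSeries.constantCoeff G ≠ 0)
    (h : (PowerSeries.X : PowerSeries R) ^ (n + 1) ∣ F - G) :
    PowerSeries.coeff n (pw F) = PowerSeries.coeff n (pw G) := by
  -- `F = G * (1 + X^(n+1) H)`
  obtain ⟨H, hH⟩ := h
  have h1 : F = G * (1 + PowerSeries.X ^ (n + 1) * (G⁻¹ * H)) := by
    have h2 : G * G⁻¹ = 1 := PowerSeries.mul_inv_cancel G hG
    calc F = G + (F - G) := by ring
    _ = G + PowerSeries.X ^ (n + 1) * H := by rw [hH]
    _ = G + (G * G⁻¹) * (PowerSeries.X ^ (n + 1) * H) := by rw [h2, one_mul]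
    _ = _ := by ring
  set E : PowerSeries R := 1 + PowerSeries.X ^ (n + 1) * (G⁻¹ * H) with hE
  have hE1 : PowerSeries.constantCoeff E = 1 := by
    rw [hE, map_add, map_one, map_mul, map_pow, PowerSeries.constantCoeff_X,
      zero_pow (by omega), zero_mul, add_zero]
  rw [h1, pw_mul hG (by rw [hE1]; exact one_ne_zero), map_add]
  have h3 : PowerSeries.coeff n (pw E) = 0 := by
    have h4 : ∀ i, 0 < i → i < n + 1 → PowerSeries.coeff i E = 0 := by
      intro i hi hin
      rw [hE, map_add, PowerSeries.coeff_one, if_neg (by omega), zero_add,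
        PowerSeries.coeff_X_pow_mul', if_neg (by omega)]
    by_cases hn : n = 0
    · rw [hn, coeff_zero_pw]
    · rw [coeff_pw_gap hE1 (fun i hi hin => h4 i hi (by omega)), h4 n (by omega) (by omega),
        mul_zero]
  rw [h3, add_zero]

theorem eq_prod_of_coeff_zero {P : ℂ[X]} (hP : P.coeff 0 = 1) :
    P = (P.roots.map (fun x => 1 - C x⁻¹ * X)).prod := by
  have h0 : P ≠ 0 := by
    rintro rfl
    simp at hP
  have h1 := (IsAlgClosed.splits P).eq_prod_roots
  have hx : ∀ x ∈ P.roots, x ≠ 0 := by
    rintro x hx rfl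
    have h2 := (mem_roots h0).1 hx
    rw [IsRoot, ← coeff_zero_eq_eval_zero, hP] at h2
    exact one_ne_zero h2
  have h2 : (P.roots.map (fun x => X - C x)).prod =
      C ((P.roots.map (fun x => -x)).prod) * (P.roots.map (fun x => 1 - C x⁻¹ * X)).prod := by
    have h3 : C ((P.roots.map (fun x => -x)).prod) = (P.roots.map (fun x => C (-x))).prod := by
      rw [map_multiset_prod, Multiset.map_map]
      rfl
    rw [h3, ← Multiset.prod_map_mul]
    congr 1
    apply Multiset.map_congr rfl
    intro x hx'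
    have h4 : (C x : ℂ[X]) * C x⁻¹ = 1 := by
      rw [← C_mul, mul_inv_cancel₀ (hx x hx'), C_1]
    rw [C_neg]
    linear_combination (-X : ℂ[X]) * h4
  have h3 : P.leadingCoeff * (P.roots.map (fun x => -x)).prod = 1 := by
    have h4 := congrArg (fun Q => Polynomial.coeff Q 0) h1
    rw [h2, ← mul_assoc, ← C_mul] at h4
    beta_reduce at h4
    rw [coeff_C_mul, hP] at h4
    have h5 : ((P.roots.map (fun x => 1 - C x⁻¹ * X)).prod : ℂ[X]).coeff 0 = 1 := by
      rw [coeff_zero_eq_eval_zero, eval_multiset_prod, Multiset.map_map]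
      apply Multiset.prod_eq_one
      intro y hy
      obtain ⟨x, -, rfl⟩ := Multiset.mem_map.1 hy
      simp
    rw [h5, mul_one] at h4
    exact h4.symm
  conv_lhs => rw [h1, h2, ← mul_assoc, ← C_mul, h3, C_1, one_mul]

theorem powerSum_one (n : ℕ) : powerSum n 1 = 0 := by
  unfold powerSum
  simp

theorem map_coeff_zero {P : ℤ[X]} (hP : P.coeff 0 = 1) :
    (P.map (Int.castRingHom ℂ)).coeff 0 = 1 := by
  rw [coeff_map, hP]; simp

/-- the power sums of `P(T ^ d)` -/
theorem coeff_pw_expand {P : ℤ[X]} (hP : P.coeff 0 = 1) {d : ℕ} (hd : d ≠ 0) {n : ℕ} (hn : n ≠ 0) :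
    PowerSeries.coeff n (pw (PowerSeries.map (Int.castRingHom ℂ)
      ((expand ℤ d P : ℤ[X]) : PowerSeries ℤ))) =
      if d ∣ n then -((d : ℂ) * powerSum (n / d) P) else 0 := by
  have h1 : PowerSeries.map (Int.castRingHom ℂ) ((expand ℤ d P : ℤ[X]) : PowerSeries ℤ) =
      ((P.map (Int.castRingHom ℂ)).roots.map
        (fun x => (1 - PowerSeries.C (x⁻¹) * PowerSeries.X ^ d : PowerSeries ℂ))).prod := by
    rw [← Polynomial.polynomial_map_coe, map_expand]
    conv_lhs => rw [eq_prod_of_coeff_zero (map_coeff_zero hP)]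
    rw [map_multiset_prod, ← Polynomial.coeToPowerSeries.ringHom_apply, map_multiset_prod,
      Multiset.map_map, Multiset.map_map]
    congr 1
    apply Multiset.map_congr rfl
    intro x _
    simp only [Function.comp_apply, map_sub, map_one, map_mul, expand_C, expand_X, map_pow,
      Polynomial.coeToPowerSeries.ringHom_apply, Polynomial.coe_C, Polynomial.coe_X]
  rw [h1]
  have key : ∀ (s : Multiset ℂ), PowerSeries.constantCoeff ((s.map
        (fun x => (1 - PowerSeries.C (x⁻¹) * PowerSeries.X ^ d : PowerSeries ℂ))).prod) ≠ 0 ∧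
      PowerSeries.coeff n (pw ((s.map
        (fun x => (1 - PowerSeries.C (x⁻¹) * PowerSeries.X ^ d : PowerSeries ℂ))).prod)) =
      if d ∣ n then -((d : ℂ) * (s.map (fun x => x⁻¹ ^ (n / d))).sum) else 0 := by
    intro s
    induction s using Multiset.induction_on with
    | empty => simp [pw_one]
    | cons a s ih =>
      have hc : PowerSeries.constantCoeff
          (1 - PowerSeries.C (a⁻¹) * PowerSeries.X ^ d : PowerSeries ℂ) = 1 := by
        rw [map_sub, map_one, map_mul, map_pow, PowerSeries.constantCoeff_X, zero_pow hd, mul_zero,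
          sub_zero]
      constructor
      · rw [Multiset.map_cons, Multiset.prod_cons, map_mul, hc, one_mul]
        exact ih.1
      · rw [Multiset.map_cons, Multiset.prod_cons, pw_mul (by rw [hc]; exact one_ne_zero) ih.1,
          map_add, ih.2, coeff_pw_lin hd _ hn]
        split_ifs with h
        · rw [Multiset.map_cons, Multiset.sum_cons]
          ring
        · rw [add_zero]
  exact (key _).2

end Pool.Agent.H427.PC
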