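import Pool.Graph.R_seed8.Y701.QF.Deg1
import Pool.Agent.H427.PC.Eul

/-!
The places of the rational function field and the points of the projective line over finite fields.
-/

set_option autoImplicit false
set_option linter.all false
set_option maxHeartbeats 1000000

open Polynomial FF Module

namespace Pool.Agent.H427.PC

open Pool.Agent.W343.BSD Pool.Agent.W309.RF Pool.Agent.Y701.QF Pool.Agent.Y701.CB
open Pool.Agent.H525R3.FFp hiding phi

variable {k : Type} [Field k]

/-- The point `u` of the projective line, with coordinates in the extension `F` of `k` (`none` is the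
point at infinity), lies on the place `v` of `k(t)`. -/
def IsPoint {F : Type} [Field F] [Algebra k F] (v : Place k (RatFunc k)) : Option F → Prop
  | none => v.ord RatFunc.X < 0
  | some u => 0 < v.ord (algebraMap k[X] (RatFunc k) (minpoly k u))

variable [Finite k]

theorem exists_place {π : k[X]} (hm : π.Monic) (hirr : Irreducible π) :
    ∃ v : Place k (RatFunc k), v ≠ infty k ∧ v.deg = π.natDegree ∧ 0 < v.ord (A π) := by
  classical
  have hne : π ≠ 0 := hirr.ne_zero
  have hinf := ord_inf_A (k := k) hne
  have hdeg : 0 < π.natDegree := hirr.natDegree_pos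
  have hfin : ∀ w : Place k (RatFunc k), 0 < w.ord (A π) → w ≠ infty k := by
    rintro w hw rfl
    rw [hinf] at hw
    omega
  obtain ⟨v, hv⟩ : ∃ v : Place k (RatFunc k), 0 < v.ord (A π) := by
    by_contra hcon
    push Not at hcon
    have h0 : ddeg (divisor k (A π)) = 0 := ddeg_divisor _
    have hle : divisor k (A π) ≤ Finsupp.single (infty k) (-(π.natDegree : ℤ)) := by
      intro w
      rw [divisor_apply, Finsupp.single_apply]
      split_ifs with h
      · subst h; rw [hinf]
      · exact hcon w
    have h2 := ddeg_mono hle
    rw [ddeg_single, h0, inf_deg infty_X] at h2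
    push_cast at h2
    omega
  refine ⟨v, hfin v hv, ?_, hv⟩
  obtain ⟨π', hm', hirr', hord, hnn, hdvd, hdeg'⟩ := fin_exists (fin_of_ne (hfin v hv))
  have h1 := eq_of_monic_of_associated hm' hm (hirr'.associated_of_dvd hirr ((hdvd _ hne).1 hv))
  rw [hdeg', h1]

section

variable {F : Type} [Field F] [Algebra k F] [Finite F]

theorem minpoly_props (u : F) : (minpoly k u).Monic ∧ Irreducible (minpoly k u) := by
  have : Module.Finite k F := Module.Finite.of_finite
  exact ⟨minpoly.monic (Algebra.IsIntegral.isIntegral u),
    minpoly.irreducible (Algebra.IsIntegral.isIntegral u)⟩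

/-- the place of a point -/
noncomputable def pl : Option F → Place k (RatFunc k)
  | none => infty k
  | some u => (exists_place (k := k) (minpoly_props u).1 (minpoly_props u).2).choose

theorem pl_some (u : F) : (pl (k := k) (some u)) ≠ infty k ∧
    (pl (k := k) (some u)).deg = (minpoly k u).natDegree ∧
    0 < (pl (k := k) (some u)).ord (A (minpoly k u)) :=
  (exists_place (k := k) (minpoly_props u).1 (minpoly_props u).2).choose_spec

theorem isPoint_pl (u : Option F) : IsPoint (pl (k := k) u) u := by
  cases u with
  | none => exact infty_X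
  | some u => exact (pl_some u).2.2

theorem isPoint_iff (v : Place k (RatFunc k)) (u : Option F) : IsPoint v u ↔ pl u = v := by
  constructor
  · intro h
    cases u with
    | none => exact inf_unique infty_X h
    | some u =>
      have h1 := pl_some (k := k) u
      have hv : v ≠ infty k := by
        rintro rfl
        have h2 : 0 < (infty k).ord (A (minpoly k u)) := h
        rw [ord_inf_A (minpoly_props u).2.ne_zero] at h2
        omega
      exact fin_unique (fin_of_ne h1.1) (fin_of_ne hv) (minpoly_props u).2 h1.2.2 h
  · rintro rfl
    exact isPoint_pl u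

theorem card_roots {π : k[X]} (hm : π.Monic) (hirr : Irreducible π) :
    Nat.card {u : F // minpoly k u = π} =
      if π.natDegree ∣ finrank k F then π.natDegree else 0 := by
  classical
  have : Fact (Irreducible π) := ⟨hirr⟩
  have e1 : Nat.card (AdjoinRoot π →ₐ[k] F) = Nat.card {x // x ∈ π.aroots F} :=
    Nat.card_congr (AdjoinRoot.equiv F k π hirr.ne_zero)
  have e2 : Nat.card {x // x ∈ π.aroots F} = Nat.card {u : F // minpoly k u = π} := by
    refine Nat.card_congr (Equiv.subtypeEquivRight fun x => ?_)
    rw [mem_aroots]
    constructor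
    · rintro ⟨-, h⟩
      exact (minpoly.eq_of_irreducible_of_monic hirr h hm).symm
    · rintro rfl
      exact ⟨hirr.ne_zero, minpoly.aeval k x⟩
  have hfr : finrank k (AdjoinRoot π) = π.natDegree := by
    rw [(AdjoinRoot.powerBasis hirr.ne_zero).finrank, AdjoinRoot.powerBasis_dim]
  rw [← e2, ← e1]
  split_ifs with h
  · rw [FiniteField.natCard_algHom_of_finrank_dvd (by rw [hfr]; exact h), hfr]
  · have : IsEmpty (AdjoinRoot π →ₐ[k] F) := by
      rw [← not_nonempty_iff, FiniteField.nonempty_algHom_iff_finrank_dvd, hfr]
      exact h
    exact Nat.card_of_isEmpty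

theorem card_fibre (v : Place k (RatFunc k)) :
    Nat.card {u : Option F // pl u = v} = if v.deg ∣ finrank k F then v.deg else 0 := by
  classical
  by_cases hv : v = infty k
  · subst hv
    rw [inf_deg infty_X, if_pos (one_dvd _)]
    have : Unique {u : Option F // pl u = infty k} := by
      refine ⟨⟨⟨none, rfl⟩⟩, ?_⟩
      rintro ⟨u, hu⟩
      cases u with
      | none => rfl
      | some u => exact absurd hu (pl_some u).1
    exact Nat.card_unique
  · obtain ⟨π, hm, hirr, hord, hnn, hdvd, hdeg⟩ := fin_exists (fin_of_ne hv)
    rw [hdeg, ← card_roots (F := F) hm hirr]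
    symm
    refine Nat.card_congr (Equiv.ofBijective (fun u => ⟨some u.1, ?_⟩) ⟨?_, ?_⟩)
    · rw [← isPoint_iff]
      show 0 < v.ord (A (minpoly k u.1))
      rw [u.2, hord]
      norm_num
    · intro a b h
      have := congrArg Subtype.val h
      exact Subtype.ext (Option.some_injective _ this)
    · rintro ⟨u, hu⟩
      cases u with
      | none => exact absurd hu.symm hv
      | some u =>
        refine ⟨⟨u, ?_⟩, rfl⟩
        rw [← isPoint_iff] at hu
        have h1 : 0 < v.ord (A (minpoly k u)) := hu
        have h2 := (hdvd _ (minpoly_props u).2.ne_zero).1 h1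
        exact (eq_of_monic_of_associated hm (minpoly_props u).1
          (hirr.associated_of_dvd (minpoly_props u).2 h2)).symm

end

end Pool.Agent.H427.PC
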